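import Pool.Agent.W902.C6.Stm2

set_option autoImplicit false

open Pool.Agent.H800R3 Filter
open Pool.Agent.W902.C6

namespace Pool.Agent.W511.C6

theorem one_lt_al : (1 : ℝ) < al := by
  have h : (0 : ℝ) < Real.sqrt 2 := Real.sqrt_pos.mpr (by norm_num)
  unfold al
  linarith

/-- a word all of whose letters have weight one and are equal to `c` -/
theorem eq_replicate (c : Lt) (hc : wt c = 1) (l : List Lt) (h : ∀ x ∈ l, x = c) (i : ℕ)
    (hw : weight l = i) : l = List.replicate i c := by
  have h1 : l = List.replicate l.length c := List.eq_replicate_iff.mpr ⟨rfl, h⟩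
  have h2 : weight l = l.length := by
    rw [h1]
    simp [weight, hc]
  rw [← hw, h2]
  exact h1

theorem lim_of_le_one (f : ℕ → ℕ) (hf : ∀ i, f i ≤ 1) :
    Tendsto (fun i : ℕ => (f i : ℝ) / al ^ i) atTop (nhds 0) := by
  have h0 : Tendsto (fun i : ℕ => (1 / al) ^ i) atTop (nhds 0) := by
    apply tendsto_pow_atTop_nhds_zero_of_lt_one
    · have := one_lt_al; positivity
    · have := one_lt_al
      rw [div_lt_one (by linarith)]
      exact this
  refine squeeze_zero (fun i => ?_) (fun i => ?_) h0
  · have := one_lt_al; positivity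
  · have h1 := one_lt_al
    have h2 : (0 : ℝ) < al ^ i := by positivity
    rw [one_div, inv_pow, ← one_div]
    apply div_le_div_of_nonneg_right _ h2.le
    exact_mod_cast hf i

theorem cnt_le_one (X : Set (List Lt)) (c : Lt) (hc : wt c = 1)
    (hX : ∀ l ∈ X, ∀ x ∈ l, x = c) (i : ℕ) : cntX X i ≤ 1 := by
  unfold cntX
  have h1 : {l | l ∈ X ∧ weight l = i} ⊆ {List.replicate i c} := by
    rintro l ⟨hl, hw⟩
    exact eq_replicate c hc l (hX l hl) i hw
  calc _ ≤ ({List.replicate i c} : Set (List Lt)).ncard :=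
        Set.ncard_le_ncard h1 (Set.finite_singleton _)
    _ = 1 := Set.ncard_singleton _

theorem main : S_lim0 := by
  refine ⟨lim_of_le_one _ (fun i => cnt_le_one XA0 (false, true) rfl ?_ i),
    lim_of_le_one _ (fun i => cnt_le_one XB0 (true, false) rfl ?_ i)⟩
  · rintro l ⟨hN, h1⟩ ⟨a, b⟩ hx
    have h2 := h1 _ hx
    have h3 := hN _ hx
    simp only at h2
    subst h2
    cases b
    · exact absurd rfl h3
    · rfl
  · rintro l ⟨hN, h1⟩ ⟨a, b⟩ hx
    have h2 := h1 _ hx
    have h3 := hN _ hx
    simp only at h2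
    subst h2
    cases a
    · exact absurd rfl h3
    · rfl

end Pool.Agent.W511.C6
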